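import Pool.Agent.Y118.UL.Liv
import Pool.Agent.L5helper52.WK.GMeas

/-!
# Linear independence of the values for separated shifts over simultaneously Liouville fields

The proof is that of `Pool.Agent.Y118.UL.liR` with another theorem on `G`-systems.
-/

set_option autoImplicit false
set_option maxHeartbeats 400000

open PowerSeries Pool.Agent.Y113 Pool.Agent.Y120.GF Pool.Agent.Y120.GH

namespace Pool.Agent.L5helper52.JK

open Pool.Agent.L5helper52.LL (SL)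
open Pool.Agent.L5helper52.WK (G_SL)

/-- values of families of shifts, over simultaneously Liouville fields -/
theorem liRK {σ : Type} [Fintype σ] {F : ℕ → σ → ℚ⟦X⟧} {Tg : ℕ → Polynomial ℤ} {q₀ E₀ c : ℕ} {b₀ : σ}
    (one : ∀ g, F g b₀ = 1) (sys : ∀ g : ℕ, GSys q₀ (((g : ℝ) + 2) ^ E₀) (Tg g) (F g))
    (ne : ∀ g t : ℕ, g + c < t → Polynomial.aeval (1 / (t : ℝ)) (Tg g) ≠ 0) (N : ℕ) :
    ∃ E : ℕ, ∀ (H t : ℕ), (H + 2) ^ E ≤ t → ∀ g : Fin N → ℕ, (∀ l, g l ≤ H) →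
      LinearIndependent (Polynomial ℚ) (fun b : Fin N → σ => ∏ l, F (g l) (b l)) →
      ∀ K : Subfield ℂ, SL K → ∀ a : (Fin N → σ) → ℂ, (∀ b, a b ∈ K) →
        ∑ b, a b * ((∏ l, ev (t : ℝ) (F (g l) (b l)) : ℝ) : ℂ) = 0 → a = 0 := by
  classical
  obtain ⟨q, E₁, hE₁⟩ := gsys_multi F Tg q₀ E₀ sys N
  obtain ⟨E₂, hE₂⟩ := G_SL (Fintype.card (Fin N → σ)) q
  refine ⟨(max E₁ 1 + 1) * max E₂ 1 + (E₀ + 2) + (c + 1), ?_⟩
  intro H t hHt g hgH hli K hK a haK ha0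
  have hH2 : (2 : ℝ) ≤ (H : ℝ) + 2 := by
    have : (0 : ℝ) ≤ H := by positivity
    linarith
  have hH1 : (1 : ℝ) ≤ (H : ℝ) + 2 := by linarith
  have htR : (((H : ℝ) + 2)) ^ ((max E₁ 1 + 1) * max E₂ 1 + (E₀ + 2) + (c + 1)) ≤ (t : ℝ) := by exact_mod_cast hHt
  have hb1 : ((H : ℝ) + 2) ^ ((max E₁ 1 + 1) * max E₂ 1) ≤ (t : ℝ) :=
    (pow_le_pow_right₀ hH1 (by omega)).trans htR
  have hb2 : ((H : ℝ) + 2) ^ (E₀ + 2) ≤ (t : ℝ) := (pow_le_pow_right₀ hH1 (by omega)).trans htR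
  have hHt' : H + c < t := by
    have h1 : (H + 2) ^ (c + 1) ≤ t := (Nat.pow_le_pow_right (by omega) (by omega)).trans hHt
    have h2 : c < 2 ^ c := Nat.lt_two_pow_self
    have h3 : 2 ^ c ≤ (H + 2) ^ c := Nat.pow_le_pow_left (by omega) _
    have h4 : (c + 1) * (H + 2) ≤ (H + 2) ^ (c + 1) := by
      rw [pow_succ]
      exact Nat.mul_le_mul_right _ (by omega)
    have h5 : H + c < (c + 1) * (H + 2) := by nlinarith
    omega
  have ht0 : (0 : ℝ) < t := by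
    have : 0 < t := by omega
    exact_mod_cast this
  have hsys := (hE₁ H g hgH).mono le_rfl (pow_le_pow_right₀ hH1 (le_max_left E₁ 1))
  have hC : (2 * ((H : ℝ) + 2) ^ (max E₁ 1)) ^ E₂ ≤ (t : ℝ) := by
    have h1 : (2 * ((H : ℝ) + 2) ^ (max E₁ 1)) ^ E₂ ≤ (2 * ((H : ℝ) + 2) ^ (max E₁ 1)) ^ (max E₂ 1) := by
      refine pow_le_pow_right₀ ?_ (le_max_left _ _)
      have : (1 : ℝ) ≤ ((H : ℝ) + 2) ^ (max E₁ 1) := one_le_pow₀ hH1
      linarith
    exact h1.trans ((pow_base H _ _).trans hb1)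
  have hne : Polynomial.aeval (1 / (t : ℝ)) (∏ l, Tg (g l)) ≠ 0 := by
    rw [map_prod, Finset.prod_ne_zero_iff]
    intro l _
    refine ne _ _ ?_
    have := hgH l
    omega
  have hLI := hE₂ (Fin N → σ) (((H : ℝ) + 2) ^ (max E₁ 1)) (∏ l, Tg (g l)) (fun b => ∏ l, F (g l) (b l)) (fun _ => b₀) t
    le_rfl hsys (Finset.prod_eq_one fun l _ => one _) hli hC hne
  -- multiplicativity
  have hcv : ∀ l b, Cv (t : ℝ) (F (g l) b) := by
    intro l b
    have h1 := (sys (g l)).size b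
    set B : ℝ := ((g l : ℝ) + 2) ^ E₀ with hB
    have hB0 : 0 ≤ B := by positivity
    refine Cv.of_bound (A := B) (B := B) ht0 hB0 ?_ fun m => ?_
    · have h2 : B ≤ ((H : ℝ) + 2) ^ E₀ := by
        refine pow_le_pow_left₀ (by positivity) ?_ _
        have : ((g l : ℕ) : ℝ) ≤ H := by exact_mod_cast hgH l
        linarith
      have h3 : ((H : ℝ) + 2) ^ E₀ < ((H : ℝ) + 2) ^ (E₀ + 2) := pow_lt_pow_right₀ (by linarith) (by omega)
      linarith
    · exact (h1 m).trans (le_of_eq (pow_succ' _ _))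
  have hev : ∀ b : Fin N → σ, ev (t : ℝ) (∏ l, F (g l) (b l)) = ∏ l, ev (t : ℝ) (F (g l) (b l)) := by
    intro b
    exact Cv.ev_prod ht0 Finset.univ (fun l => F (g l) (b l)) fun l _ => hcv l _
  refine hLI K hK a haK ?_
  rw [← ha0]
  refine Finset.sum_congr rfl fun b _ => ?_
  rw [hev b]


end Pool.Agent.L5helper52.JK
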