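import Pool.Agent.Y929.K.Nrj
import Pool.Agent.L5helper52.WK.Aw
import Pool.Agent.L5helper52.JK.Liv

/-!
# The values for distinct shifts satisfy no relation of bounded degree over simultaneously Liouville fields

The proof is that of `Pool.Agent.Y929.K.t_nrj` with other coefficients.
-/

set_option autoImplicit false
set_option maxHeartbeats 400000

open PowerSeries Pool.Agent.Y113 Pool.Agent.Y120.K Pool.Agent.Y929.K

namespace Pool.Agent.L5helper52.JK

open Pool.Agent.L5helper52.LL (SL)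
open Pool.Agent.L5helper52.WK (Inp NoRel)

/-- the values for distinct shifts satisfy no relation of bounded degree over simultaneously Liouville fields -/
theorem inpJ (s : Bool) (hm : T_MONJ s) (hl : T_LIJ s) : Inp {K | SL K} (vJ s) := by
  classical
  intro N δ
  obtain ⟨E₁, hE₁⟩ := size_fJ hm
  obtain ⟨q, E₀, c, Tg, sys, ne⟩ := hm δ
  have h00 : ∑ i : Fin 3, (fun _ : Fin 3 => 0) i ≤ δ := by simp
  obtain ⟨E, hE⟩ := liRK (F := fun g (e : Pool.Agent.Y113.Ex δ) => monJ s g e)
    (b₀ := mkE (fun _ => 0) h00) (fun g => by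
      show monJ s g (mkE (fun _ => 0) h00) = 1
      rw [monJ_mkE]
      simp) sys ne N
  refine ⟨E + (E₁ + 2), ?_⟩
  intro H t ht K hK g hg hgH P hP hP0
  have hLI := hE H t ((Nat.pow_le_pow_right (by omega) (by omega)).trans ht) g (fun l => (hgH l).2)
    (hl N δ g hg fun l => (hgH l).1) K hK
  have ht0' : 0 < t := lt_of_lt_of_le (by positivity) ht
  have ht0 : (0 : ℝ) < t := by exact_mod_cast ht0'
  have hcv : ∀ (l : Fin N) (i : Fin 3), Cv (t : ℝ) (fJ s (g l) i.castSucc) := by
    intro l i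
    set B : ℝ := ((g l : ℝ) + 2) ^ E₁ with hB
    have hB0 : 0 ≤ B := by positivity
    refine Cv.of_bound (A := B) (B := B) ht0 hB0 ?_ fun m => ?_
    · have hH0 : (0 : ℝ) ≤ H := by positivity
      have h2 : B ≤ ((H : ℝ) + 2) ^ E₁ := by
        refine pow_le_pow_left₀ (by positivity) ?_ _
        have : ((g l : ℕ) : ℝ) ≤ H := by exact_mod_cast (hgH l).2
        linarith
      have h3 : ((H : ℝ) + 2) ^ E₁ < ((H : ℝ) + 2) ^ (E₁ + 2) := pow_lt_pow_right₀ (by linarith) (by omega)
      have h4 : ((H : ℝ) + 2) ^ (E₁ + 2) ≤ (t : ℝ) := by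
        have h5 : (H + 2) ^ (E₁ + 2) ≤ t := (Nat.pow_le_pow_right (by omega) (by omega)).trans ht
        exact_mod_cast h5
      linarith
    · exact (hE₁ (g l) i m).trans (le_of_eq (pow_succ' _ _))
  -- the exponents
  have hdeg : ∀ m ∈ P.support, ∑ p, m p ≤ δ := by
    intro m hm'
    have h1 := (MvPolynomial.le_totalDegree hm').trans hP
    rwa [Finsupp.sum_fintype _ _ (fun _ => rfl)] at h1
  have hdl : ∀ m ∈ P.support, ∀ l : Fin N, ∑ i : Fin 3, m (l, i) ≤ δ := by
    intro m hm' l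
    refine le_trans ?_ (hdeg m hm')
    rw [Fintype.sum_prod_type]
    exact Finset.single_le_sum (f := fun l => ∑ i : Fin 3, m (l, i)) (fun _ _ => Nat.zero_le _) (Finset.mem_univ l)
  let bs : P.support → Fin N → Pool.Agent.Y113.Ex δ := fun m l =>
    mkE (fun i => (m : (Fin N × Fin 3) →₀ ℕ) (l, i)) (hdl m m.2 l)
  have hbs : Function.Injective bs := by
    intro m m' h
    apply Subtype.ext
    ext ⟨l, i⟩
    exact congrFun (mkE_inj _ _ (congrFun h l)) i
  -- the values
  have hval : ∀ m : P.support, ∏ p : Fin N × Fin 3, (vJ s t (g p.1) p.2) ^ (m : (Fin N × Fin 3) →₀ ℕ) p =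
      ((∏ l, ev (t : ℝ) (monJ s (g l) (bs m l)) : ℝ) : ℂ) := by
    intro m
    rw [Fintype.prod_prod_type, Complex.ofReal_prod]
    refine Finset.prod_congr rfl fun l _ => ?_
    show _ = ((ev (t : ℝ) (monJ s (g l) (mkE (fun i => (m : (Fin N × Fin 3) →₀ ℕ) (l, i)) (hdl m m.2 l))) : ℝ) : ℂ)
    rw [monJ_mkE, Cv.ev_prod ht0 Finset.univ (fun i : Fin 3 => fJ s (g l) i.castSucc ^ (m : (Fin N × Fin 3) →₀ ℕ) (l, i))
      (fun i _ => (hcv l i).pow ht0 _), Complex.ofReal_prod]
    refine Finset.prod_congr rfl fun i _ => ?_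
    rw [Cv.ev_pow ht0 (hcv l i), Complex.ofReal_pow]
    rfl
  -- the coefficients
  set a : (Fin N → Pool.Agent.Y113.Ex δ) → ℂ := fun b => ∑ m : P.support, if bs m = b then ((P.coeff m : K) : ℂ) else 0
    with ha
  have haK : ∀ b, a b ∈ K := fun b => K.sum_mem fun m _ => by
    split_ifs
    · exact (P.coeff m).2
    · exact K.zero_mem
  have hrel : ∑ b, a b * ((∏ l, ev (t : ℝ) (monJ s (g l) (b l)) : ℝ) : ℂ) = 0 := by
    have e1 : ∀ b, a b * ((∏ l, ev (t : ℝ) (monJ s (g l) (b l)) : ℝ) : ℂ) =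
        ∑ m : P.support, if bs m = b then ((P.coeff m : K) : ℂ) *
          ((∏ l, ev (t : ℝ) (monJ s (g l) (bs m l)) : ℝ) : ℂ) else 0 := by
      intro b
      rw [ha]
      simp only
      rw [Finset.sum_mul]
      refine Finset.sum_congr rfl fun m _ => ?_
      split_ifs with h
      · rw [h]
      · rw [zero_mul]
    simp only [e1]
    rw [Finset.sum_comm]
    simp only [Finset.sum_ite_eq, Finset.mem_univ, if_true]
    rw [← hP0, MvPolynomial.aeval_def, MvPolynomial.eval₂_eq', ← Finset.sum_coe_sort P.support]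
    refine Finset.sum_congr rfl fun m _ => ?_
    rw [hval m]
    rfl
  have h2 := hLI a haK hrel
  by_contra hP1
  obtain ⟨m, hm'⟩ := MvPolynomial.ne_zero_iff.1 hP1
  refine hm' ?_
  have h3 := congrFun h2 (bs ⟨m, MvPolynomial.mem_support_iff.2 hm'⟩)
  rw [ha] at h3
  simp only [Pi.zero_apply] at h3
  rw [Finset.sum_eq_single ⟨m, MvPolynomial.mem_support_iff.2 hm'⟩] at h3
  · rw [if_pos rfl] at h3
    exact Subtype.ext h3
  · intro m' _ hne
    rw [if_neg]
    exact fun h => hne (hbs h)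
  · exact fun h => absurd (Finset.mem_univ _) h

end Pool.Agent.L5helper52.JK
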