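import Pool.Agent.Y120.K.WinI
import Pool.Agent.Y120.K.All
import Pool.Agent.L5helper52.JK.Nrj

/-!
# Windows of integral modular invariants over simultaneously Liouville fields

The proofs are those of `Pool.Agent.Y120.K.{WinK,WinZ,WinI}` with other base fields.
-/

set_option autoImplicit false

open PowerSeries Pool.Agent.Y113 Pool.Agent.Y120.GF Pool.Agent.Y120.GH Pool.Agent.Y120.J Pool.Agent.Y120.R
open Pool.Agent.TH21.MS (jj)

namespace Pool.Agent.L5helper52.JK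

open Pool.Agent.Y120.K hiding Zp Zp_deg Zp_eval winK winZ2 winI lin lin_deg lin_eval fr fr_eval
open Pool.Agent.L5helper52.LL (SL)
open Pool.Agent.L5helper52.WK (Inp NoRel awK)

/-- windows for free coordinates -/
theorem absFreeK (C : Set (Subfield ℂ)) {ε υ : Type} [Fintype ε] [Fintype υ] {val : ℕ → ℕ → ε → ℂ}
    (hval : Inp C val) (k D d : ℕ) :
    ∃ E : ℕ, ∀ H t : ℕ, (H + 2) ^ E ≤ t → ∀ F ∈ C, ∀ w : υ → ℂ, ∃ S : Finset ℕ, S.card ≤ Fintype.card υ ∧
      ∀ g : Fin k → ℕ, Function.Injective g → (∀ i, 1 ≤ g i ∧ g i ≤ H ∧ g i ∉ S) →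
      ∀ K : IntermediateField F ℂ, FiniteDimensional F K → Module.finrank F K ≤ D →
      ∀ P : MvPolynomial (υ ⊕ Fin k × ε) K, P.totalDegree ≤ d →
      MvPolynomial.aeval (Sum.elim w fun a : Fin k × ε => val t (g a.1) a.2) P = 0 →
      ∀ y, MvPolynomial.aeval (Sum.elim w y) P = 0 := by
  classical
  obtain ⟨E, hE⟩ := awK C val hval k D d (Fintype.card υ)
  refine ⟨E, fun H t ht F hF w => ?_⟩
  set e : υ ≃ Fin (Fintype.card υ) := Fintype.equivFin υ with he
  obtain ⟨S, hS, h⟩ := hE H t ht F hF (w ∘ e.symm)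
  refine ⟨S, hS, fun g hg hgS K hK hKD P hP hP0 y => ?_⟩
  have h1 := h g hg hgS K hK hKD (fun a => val t (g a.1) a.2) (fun p => ⟨1, one_ne_zero, by
      rw [show ((1 : K) : ℂ) = 1 from rfl, one_mul, sub_self]
      exact Submodule.zero_mem _⟩)
    (MvPolynomial.rename (Sum.map e id) P) ((MvPolynomial.totalDegree_rename_le _ _).trans hP) (by
      rw [MvPolynomial.aeval_rename, ← hP0]
      congr 2
      funext x
      rcases x with x | x
      · simp
      · rfl)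
  have h2 := congrArg (MvPolynomial.aeval y : MvPolynomial (Fin k × ε) ℂ →ₐ[ℂ] ℂ) h1
  rw [map_zero] at h2
  have h3 := MvPolynomial.comp_aeval_apply (f := (Sum.elim (fun j => MvPolynomial.C ((w ∘ e.symm) j)) MvPolynomial.X :
      Fin (Fintype.card υ) ⊕ Fin k × ε → MvPolynomial (Fin k × ε) ℂ))
    ((MvPolynomial.aeval y : MvPolynomial (Fin k × ε) ℂ →ₐ[ℂ] ℂ).restrictScalars K)
    (MvPolynomial.rename (Sum.map e id) P)
  rw [AlgHom.restrictScalars_apply] at h3
  rw [h3, MvPolynomial.aeval_rename] at h2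
  rw [← h2]
  congr 2
  funext x
  rcases x with x | x
  · simp
  · simp

section
variable {K : Type} [Field K] {q k : ℕ}

/-- the period functions as polynomials -/
noncomputable def Zp (K : Type) [Field K] (q : ℕ) {k : ℕ} (s : Bool) (j : Fin k) : Fin 3 → MvPolynomial (Vr q k) K :=
  ![MvPolynomial.X (Sum.inl (Sum.inl 0)) * MvPolynomial.X (Sum.inr (j, 0)) ^ 2,
    MvPolynomial.X (Sum.inr (j, 0)) * (-MvPolynomial.X (Sum.inr (j, 2)) -
      MvPolynomial.X (Sum.inl (Sum.inr none)) * MvPolynomial.X (Sum.inr (j, 0))) +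
      MvPolynomial.C (if s then 0 else 1 / 2) * (MvPolynomial.X (Sum.inl (Sum.inl 0)) * MvPolynomial.X (Sum.inr (j, 0)) ^ 2),
    MvPolynomial.X (Sum.inl (Sum.inl 0)) * (MvPolynomial.X (Sum.inr (j, 0)) * MvPolynomial.X (Sum.inr (j, 1)))]

lemma Zp_deg (s : Bool) (j : Fin k) (i : Fin 3) : (Zp K q s j i).totalDegree ≤ 3 := by
  have h2 : ∀ v : Vr q k, (MvPolynomial.X v ^ 2 : MvPolynomial (Vr q k) K).totalDegree ≤ 2 := fun v =>
    (MvPolynomial.totalDegree_pow _ _).trans (by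
      have := dX (R := K) v
      omega)
  have h3 : (MvPolynomial.X (Sum.inl (Sum.inl 0)) * MvPolynomial.X (Sum.inr (j, 0)) ^ 2 : MvPolynomial (Vr q k) K).totalDegree ≤ 3 :=
    dmul (dX _) (h2 _)
  fin_cases i
  · exact h3
  · refine dadd ?_ ?_
    · refine dmul (a := 1) (b := 2) (dX _) (dsub ?_ (dmul (a := 1) (b := 1) (dX _) (dX _)))
      rw [MvPolynomial.totalDegree_neg]
      exact (dX _).trans (by norm_num)
    · refine dmul (a := 0) (b := 3) ?_ h3
      rw [MvPolynomial.totalDegree_C]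
  · exact dmul (a := 1) (b := 2) (dX _) (dmul (a := 1) (b := 1) (dX _) (dX _))

lemma Zp_eval [Algebra K ℂ] (s : Bool) (j : Fin k) (ℓ : ℂ) (w : Fin q → ℂ) (y : Fin k × Fin 3 → ℂ) :
    (fun i => MvPolynomial.aeval (pt ℓ w y) (Zp K q s j i)) = Zo (if s then 0 else 1 / 2) ℓ fun i => y (j, i) := by
  have hC : MvPolynomial.aeval (pt ℓ w y) (MvPolynomial.C (if s then 0 else 1 / 2) : MvPolynomial (Vr q k) K) =
      (if s then 0 else 1 / 2 : ℂ) := by
    rw [MvPolynomial.aeval_C]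
    cases s
    · simp only [Bool.false_eq_true, if_false]
      rw [map_div₀, map_one, map_ofNat]
    · simp
  funext i
  fin_cases i
  · show MvPolynomial.aeval (pt ℓ w y) (MvPolynomial.X (Sum.inl (Sum.inl 0)) * MvPolynomial.X (Sum.inr (j, 0)) ^ 2) =
      tpi * y (j, 0) ^ 2
    rw [map_mul, map_pow, MvPolynomial.aeval_X, MvPolynomial.aeval_X]
    rfl
  · show MvPolynomial.aeval (pt ℓ w y) (MvPolynomial.X (Sum.inr (j, 0)) * (-MvPolynomial.X (Sum.inr (j, 2)) -
      MvPolynomial.X (Sum.inl (Sum.inr none)) * MvPolynomial.X (Sum.inr (j, 0))) +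
      MvPolynomial.C (if s then 0 else 1 / 2) * (MvPolynomial.X (Sum.inl (Sum.inl 0)) * MvPolynomial.X (Sum.inr (j, 0)) ^ 2)) =
      y (j, 0) * (-y (j, 2) - ℓ * y (j, 0)) + (if s then 0 else 1 / 2) * (tpi * y (j, 0) ^ 2)
    rw [map_add, map_mul, map_sub, map_neg, map_mul, map_mul, map_mul, map_pow, hC, MvPolynomial.aeval_X,
      MvPolynomial.aeval_X, MvPolynomial.aeval_X, MvPolynomial.aeval_X]
    rfl
  · show MvPolynomial.aeval (pt ℓ w y) (MvPolynomial.X (Sum.inl (Sum.inl 0)) *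
      (MvPolynomial.X (Sum.inr (j, 0)) * MvPolynomial.X (Sum.inr (j, 1)))) = tpi * (y (j, 0) * y (j, 1))
    rw [map_mul, map_mul, MvPolynomial.aeval_X, MvPolynomial.aeval_X, MvPolynomial.aeval_X]
    rfl

end

/-- windows for integers of one sign: all distinct integers -/
theorem winK {s : Bool} (hn : Inp {F | SL F} (vJ s)) (q k D δ : ℕ) : ∃ E : ℕ, ∀ H t : ℕ, (H + 2) ^ E ≤ t →
    ∀ F : Subfield ℂ, SL F → ∀ w : Fin q → ℂ,
    ∃ S : Finset ℕ, S.card ≤ q + 2 ∧ ∀ g : Fin k → ℕ, Function.Injective g → (∀ i, 1 ≤ g i ∧ g i ≤ H ∧ g i ∉ S) →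
    ∀ z : Fin k → UpperHalfPlane, (∀ i, jj (z i) = ((si s * ((t - g i : ℕ) : ℤ) : ℤ) : ℂ)) →
    ∀ K : IntermediateField F ℂ, FiniteDimensional F K → Module.finrank F K ≤ D →
    ∀ P : MvPolynomial (Option (Fin q) ⊕ Fin k × Fin 3) K, P.totalDegree ≤ δ →
    MvPolynomial.aeval (Sum.elim (wo w) fun v : Fin k × Fin 3 => jt (z v.1) v.2) P = 0 →
    ∀ u, MvPolynomial.aeval (Sum.elim (wo w) u) P = 0 := by
  classical
  obtain ⟨T, hT⟩ := all_PT s
  obtain ⟨w₀, hw₀⟩ := exists_nat_ge T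
  obtain ⟨C, hC, hsz⟩ := size_hS s
  obtain ⟨c₀, hc₀⟩ := exists_nat_gt C
  obtain ⟨E, hE⟩ := absFreeK (υ := Fin 1 ⊕ Option (Fin q)) {F | SL F} hn k D
    (Fintype.card (Option (Fin q)) * (δ * 24) + Fintype.card (Fin k × Fin 3) * (δ * 24))
  refine ⟨E + (w₀ + c₀ + 2), fun H t ht F hF w => ?_⟩
  have h2 : 1 ≤ H + 2 := by omega
  have hEt : (H + 2) ^ E ≤ t := (Nat.pow_le_pow_right h2 (by omega)).trans ht
  have hbig : ∀ g, g ≤ H → w₀ + c₀ + g + 1 ≤ t := by
    intro g hg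
    have e0 : (H + 2) ^ (w₀ + c₀ + 2) ≤ t := (Nat.pow_le_pow_right h2 (by omega)).trans ht
    have e1 : 2 ^ (w₀ + c₀ + 1) * (H + 2) ≤ (H + 2) ^ (w₀ + c₀ + 1) * (H + 2) :=
      Nat.mul_le_mul_right _ (Nat.pow_le_pow_left (by omega) _)
    have e2 : (H + 2) ^ (w₀ + c₀ + 1) * (H + 2) = (H + 2) ^ (w₀ + c₀ + 2) := by rw [← pow_succ]
    have e3 : w₀ + c₀ + 1 < 2 ^ (w₀ + c₀ + 1) := Nat.lt_two_pow_self
    have e4 : 2 ^ (w₀ + c₀ + 1) + H ≤ 2 ^ (w₀ + c₀ + 1) * (H + 2) := by nlinarith [Nat.one_le_two_pow (n := w₀ + c₀ + 1)]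
    omega
  obtain ⟨S, hS, hwin⟩ := hE H t hEt F hF
    (Sum.elim (fun _ : Fin 1 => tpi) fun o : Option (Fin q) => o.elim ((Real.log t : ℝ) : ℂ) w)
  refine ⟨S, ?_, ?_⟩
  · refine hS.trans ?_
    rw [Fintype.card_sum, Fintype.card_fin, Fintype.card_option, Fintype.card_fin]
    omega
  intro g hg hgS z hz K hK hKD P hPδ hP u
  -- the points
  have hti0 : ∀ i, (si s * ((t - g i : ℕ) : ℤ)) ≠ 0 := by
    intro i
    have h3 := hbig _ (hgS i).2.1
    have h4 : (((t - g i : ℕ) : ℤ)) ≠ 0 := by omega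
    refine mul_ne_zero ?_ h4
    unfold si
    split_ifs <;> norm_num
  have hpt := fun i => hT ((t - g i : ℕ) : ℝ) (z i) (hw₀.trans (by
    have := hbig _ (hgS i).2.1
    exact_mod_cast (by omega))) (by rw [hz i]; push_cast; rfl)
  choose γ ω hγ hZ0 hω hd1 hd2 using hpt
  have hpts : ∀ i, (∀ j, e2 (pS s ((t - g i : ℕ) : ℝ)) (mm (γ i 1 0) (γ i 1 1) j) ≠ 0) ∧
      ∀ j, jt (z i) j = e2 (pS s ((t - g i : ℕ) : ℝ)) (nn (γ i 0 0) (γ i 0 1) (γ i 1 0) (γ i 1 1)
        (si s * ((t - g i : ℕ) : ℤ)) j) / e2 (pS s ((t - g i : ℕ) : ℝ)) (mm (γ i 1 0) (γ i 1 1) j) := fun i =>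
    ptsS (t := si s * ((t - g i : ℕ) : ℤ)) (hZ0 i) (hω i) (by rw [hd1 i]; push_cast; ring)
      (by rw [hd2 i]; push_cast; ring) (γ i) (hγ i)
  have hpS : ∀ i, pS s ((t - g i : ℕ) : ℝ) = Zo (if s then 0 else 1 / 2) ((Real.log t : ℝ) : ℂ) (vJ s t (g i)) := by
    intro i
    refine pS_eq hC hsz ?_
    have h3 := hbig _ (hgS i).2.1
    have h4 : (g i : ℝ) + c₀ ≤ t := by exact_mod_cast (by omega)
    linarith
  -- the polynomial
  set W : Option (Fin q) → MvPolynomial (Vr q k) K := fun o => MvPolynomial.X (Sum.inl (o.elim (Sum.inl 0)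
    fun l => Sum.inr (some l))) with hW
  set Np : Fin k × Fin 3 → MvPolynomial (Vr q k) K := fun v => MvPolynomial.aeval (Zp K q s v.1)
    (MvPolynomial.map (Int.castRingHom K) (nn (γ v.1 0 0) (γ v.1 0 1) (γ v.1 1 0) (γ v.1 1 1)
      (si s * ((t - g v.1 : ℕ) : ℤ)) v.2)) with hNp
  set Mp : Fin k × Fin 3 → MvPolynomial (Vr q k) K := fun v => MvPolynomial.aeval (Zp K q s v.1)
    (MvPolynomial.map (Int.castRingHom K) (mm (γ v.1 1 0) (γ v.1 1 1) v.2)) with hMp
  have hNe : ∀ (y : Fin k × Fin 3 → ℂ) v, MvPolynomial.aeval (pt ((Real.log t : ℝ) : ℂ) w y) (Np v) =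
      e2 (Zo (if s then 0 else 1 / 2) ((Real.log t : ℝ) : ℂ) fun i => y (v.1, i))
        (nn (γ v.1 0 0) (γ v.1 0 1) (γ v.1 1 0) (γ v.1 1 1) (si s * ((t - g v.1 : ℕ) : ℤ)) v.2) := by
    intro y v
    rw [hNp]
    show MvPolynomial.aeval _ (MvPolynomial.aeval _ (MvPolynomial.map _ _)) = _
    rw [aeval_int, Zp_eval]
    rfl
  have hMe : ∀ (y : Fin k × Fin 3 → ℂ) v, MvPolynomial.aeval (pt ((Real.log t : ℝ) : ℂ) w y) (Mp v) =
      e2 (Zo (if s then 0 else 1 / 2) ((Real.log t : ℝ) : ℂ) fun i => y (v.1, i)) (mm (γ v.1 1 0) (γ v.1 1 1) v.2) := by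
    intro y v
    rw [hMp]
    show MvPolynomial.aeval _ (MvPolynomial.aeval _ (MvPolynomial.map _ _)) = _
    rw [aeval_int, Zp_eval]
    rfl
  have hWe : ∀ y : Fin k × Fin 3 → ℂ, (fun a => MvPolynomial.aeval (pt ((Real.log t : ℝ) : ℂ) w y) (W a)) = wo w := by
    intro y
    funext a
    rw [hW]
    show MvPolynomial.aeval _ (MvPolynomial.X _) = _
    rw [MvPolynomial.aeval_X]
    rcases a with _ | a <;> rfl
  have hdeg : (clr δ W Np Mp P).totalDegree ≤
      Fintype.card (Option (Fin q)) * (δ * 24) + Fintype.card (Fin k × Fin 3) * (δ * 24) := by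
    refine clr_deg hPδ (fun a => (dX _).trans (by norm_num)) (fun v => ?_) fun v => ?_
    · exact (aeval_int_deg (nn_deg _ _ _ _ _ _) fun i => Zp_deg s v.1 i).trans (by norm_num)
    · exact (aeval_int_deg (mm_deg _ _ _) fun i => Zp_deg s v.1 i).trans (by norm_num)
  -- it vanishes at the values
  have hzero : MvPolynomial.aeval (pt ((Real.log t : ℝ) : ℂ) w fun a : Fin k × Fin 3 => vJ s t (g a.1) a.2)
      (clr δ W Np Mp P) = 0 := by
    rw [clr_eval hPδ, hWe]
    · have e1 : (fun b : Fin k × Fin 3 => MvPolynomial.aeval (pt ((Real.log t : ℝ) : ℂ) w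
          fun a : Fin k × Fin 3 => vJ s t (g a.1) a.2) (Np b) / MvPolynomial.aeval (pt ((Real.log t : ℝ) : ℂ) w
          fun a : Fin k × Fin 3 => vJ s t (g a.1) a.2) (Mp b)) = fun v => jt (z v.1) v.2 := by
        funext v
        rw [hNe, hMe, (hpts v.1).2 v.2, hpS v.1]
      rw [e1, hP, mul_zero]
    · intro b
      rw [hMe]
      have := (hpts b.1).1 b.2
      rwa [hpS b.1] at this
  have hall : ∀ y : Fin k × Fin 3 → ℂ, MvPolynomial.aeval (pt ((Real.log t : ℝ) : ℂ) w y) (clr δ W Np Mp P) = 0 :=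
    fun y => hwin g hg hgS K hK hKD _ hdeg hzero y
  -- the substitution of the constants
  let p : MvPolynomial (Fin k × Fin 3) ℂ := MvPolynomial.eval₂Hom (MvPolynomial.C.comp (algebraMap K ℂ))
    (Sum.elim (fun a => MvPolynomial.C (wo w a)) MvPolynomial.X) P
  have hp : ∀ u, MvPolynomial.eval u p = MvPolynomial.aeval (Sum.elim (wo w) u) P := by
    intro u
    show MvPolynomial.eval u (MvPolynomial.eval₂Hom _ _ P) = _
    have e1 : (MvPolynomial.eval u).comp (MvPolynomial.eval₂Hom (MvPolynomial.C.comp (algebraMap K ℂ))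
        (Sum.elim (fun a => MvPolynomial.C (wo w a)) MvPolynomial.X)) =
        ((MvPolynomial.aeval (Sum.elim (wo w) u) : MvPolynomial (Option (Fin q) ⊕ Fin k × Fin 3) K →ₐ[K] ℂ) :
          MvPolynomial (Option (Fin q) ⊕ Fin k × Fin 3) K →+* ℂ) := by
      refine MvPolynomial.ringHom_ext (fun r => ?_) fun i => ?_
      · simp
      · rcases i with a | b
        · simp
        · simp
    exact RingHom.congr_fun e1 P
  have hp0 : p = 0 := by
    refine dense_zero (a := fun j => γ j 0 0) (c := fun j => γ j 1 0) (fun j => ?_) fun u hu => ?_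
    · by_contra hcon
      push Not at hcon
      have h1 := (γ j).det_coe
      rw [Matrix.det_fin_two, hcon.1, hcon.2] at h1
      simp at h1
    · rw [hp]
      have hpre : ∀ j, ∃ v : Fin 3 → ℂ,
          (∀ i, e2 (Zo (if s then 0 else 1 / 2) ((Real.log t : ℝ) : ℂ) v) (mm (γ j 1 0) (γ j 1 1) i) ≠ 0) ∧
          ∀ i, u (j, i) = e2 (Zo (if s then 0 else 1 / 2) ((Real.log t : ℝ) : ℂ) v)
            (nn (γ j 0 0) (γ j 0 1) (γ j 1 0) (γ j 1 1) (si s * ((t - g j : ℕ) : ℤ)) i) /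
            e2 (Zo (if s then 0 else 1 / 2) ((Real.log t : ℝ) : ℂ) v) (mm (γ j 1 0) (γ j 1 1) i) := by
        intro j
        have hdet : (γ j 0 0) * (γ j 1 1) - (γ j 0 1) * (γ j 1 0) = 1 := by
          have h1 := (γ j).det_coe
          rw [Matrix.det_fin_two] at h1
          exact h1
        obtain ⟨Z, hZ, h3, h4⟩ := exists_Z (u := fun i => u (j, i)) hdet (hti0 j) (hu j).1 (hu j).2
        obtain ⟨v, hv⟩ := exists_Zo (if s then 0 else 1 / 2) ((Real.log t : ℝ) : ℂ) hZ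
        exact ⟨v, by rw [hv]; exact h3, by rw [hv]; exact h4⟩
      choose v hv1 hv2 using hpre
      have h5 := hall fun a => v a.1 a.2
      rw [clr_eval hPδ _ fun b => by rw [hMe]; exact hv1 b.1 b.2, hWe] at h5
      have e1 : (fun b : Fin k × Fin 3 => MvPolynomial.aeval (pt ((Real.log t : ℝ) : ℂ) w
          fun a : Fin k × Fin 3 => v a.1 a.2) (Np b) / MvPolynomial.aeval (pt ((Real.log t : ℝ) : ℂ) w
          fun a : Fin k × Fin 3 => v a.1 a.2) (Mp b)) = u := by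
        funext b
        rw [hNe, hMe]
        exact (hv2 b.1 b.2).symm
      rw [e1] at h5
      refine (mul_eq_zero.1 h5).resolve_left ?_
      refine Finset.prod_ne_zero_iff.2 fun b _ => pow_ne_zero _ ?_
      rw [hMe]
      exact hv1 b.1 b.2
  rw [← hp u, hp0, map_zero]

/-- windows in terms of the integers -/
theorem winZ2 (hn : ∀ s, Inp {F | SL F} (vJ s)) (q k D δ : ℕ) : ∃ E : ℕ, ∀ N H : ℕ, (H + 2) ^ E ≤ N →
    ∀ F : Subfield ℂ, SL F → ∀ (w : Fin q → ℂ) (s : Bool),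
    ∃ S : Finset ℤ, S.card ≤ q + 2 ∧ ∀ n : Fin k → ℤ, Function.Injective n →
    (∀ i, (N : ℤ) ≤ si s * n i ∧ si s * n i ≤ N + H ∧ n i ∉ S) →
    ∀ z : Fin k → UpperHalfPlane, (∀ i, jj (z i) = n i) →
    ∀ K : IntermediateField F ℂ, FiniteDimensional F K → Module.finrank F K ≤ D →
    ∀ P : MvPolynomial (Option (Fin q) ⊕ Fin k × Fin 3) K, P.totalDegree ≤ δ →
    MvPolynomial.aeval (Sum.elim (wo w) fun v : Fin k × Fin 3 => jt (z v.1) v.2) P = 0 →
    ∀ u, MvPolynomial.aeval (Sum.elim (wo w) u) P = 0 := by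
  classical
  have h0 := fun s => winK (hn s) q k D δ
  choose E₀ hE₀ using h0
  refine ⟨2 * (E₀ true + E₀ false), fun N H hN F hF w s => ?_⟩
  have hE : (H + 1 + 2) ^ E₀ s ≤ N + H + 1 := by
    have h1 : H + 1 + 2 ≤ (H + 2) ^ 2 := by nlinarith
    have h2 : (H + 1 + 2) ^ E₀ s ≤ (H + 2) ^ (2 * E₀ s) := by
      rw [pow_mul]
      exact Nat.pow_le_pow_left h1 _
    have h3 : (H + 2) ^ (2 * E₀ s) ≤ (H + 2) ^ (2 * (E₀ true + E₀ false)) := by
      refine Nat.pow_le_pow_right (by omega) ?_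
      cases s <;> omega
    omega
  obtain ⟨S, hS, hwin⟩ := hE₀ s (H + 1) (N + H + 1) hE F hF w
  have hsi : si s * si s = 1 := by
    unfold si
    split_ifs <;> norm_num
  refine ⟨S.image fun g : ℕ => si s * (((N + H + 1 : ℕ) : ℤ) - (g : ℤ)), Finset.card_image_le.trans hS, ?_⟩
  intro n hn hnS z hz K hK hKD P hP hP0
  set g : Fin k → ℕ := fun i => (((N + H + 1 : ℕ) : ℤ) - si s * n i).toNat with hg
  have hgi : ∀ i, (g i : ℤ) = (N + H + 1 : ℕ) - si s * n i := by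
    intro i
    have := (hnS i).2.1
    rw [hg]
    show ((((N + H + 1 : ℕ) : ℤ) - si s * n i).toNat : ℤ) = _
    rw [Int.toNat_of_nonneg]
    push_cast
    linarith
  have hni : ∀ i, n i = si s * ((N + H + 1 : ℕ) - (g i : ℤ)) := by
    intro i
    rw [hgi i]
    linear_combination (-(n i)) * hsi
  have hinj : Function.Injective g := by
    intro i j hij
    apply hn
    rw [hni i, hni j, hij]
  have hg1 : ∀ i, 1 ≤ g i := by
    intro i
    have h1 := hgi i
    have h2 := (hnS i).2.1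
    push_cast at h1
    have h3 : (1 : ℤ) ≤ g i := by linarith
    exact_mod_cast h3
  have hgH : ∀ i, g i ≤ H + 1 := by
    intro i
    have h1 := hgi i
    have h2 := (hnS i).1
    push_cast at h1
    have h3 : (g i : ℤ) ≤ H + 1 := by linarith
    exact_mod_cast h3
  refine hwin g hinj (fun i => ⟨hg1 i, hgH i, fun hmem => ?_⟩) z (fun i => ?_) K hK hKD P hP hP0
  · exact (hnS i).2.2 (Finset.mem_image.2 ⟨g i, hmem, (hni i).symm⟩)
  · rw [hz i, hni i]
    have h1 : ((N + H + 1 - g i : ℕ) : ℤ) = ((N + H + 1 : ℕ) : ℤ) - (g i : ℤ) :=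
      Nat.cast_sub ((hgH i).trans (by omega))
    rw [h1]

section
variable {K : Type} [Field K] {q k : ℕ}

/-- a linear polynomial -/
noncomputable def lin (K : Type) [Field K] (q : ℕ) {k : ℕ} (a b : ℤ) (i : Fin k) :
    MvPolynomial (Option (Fin q) ⊕ Fin k × Fin 3) K :=
  MvPolynomial.C (a : K) * MvPolynomial.X (Sum.inr (i, 0)) + MvPolynomial.C (b : K)

lemma lin_deg (a b : ℤ) (i : Fin k) : (lin K q a b i).totalDegree ≤ 1 := by
  unfold lin
  refine (MvPolynomial.totalDegree_add _ _).trans (max_le ?_ ?_)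
  · refine (MvPolynomial.totalDegree_mul _ _).trans ?_
    rw [MvPolynomial.totalDegree_C, zero_add]
    exact dX _
  · rw [MvPolynomial.totalDegree_C]
    exact Nat.zero_le _

lemma lin_eval [Algebra K ℂ] (a b : ℤ) (i : Fin k) (y : Option (Fin q) ⊕ Fin k × Fin 3 → ℂ) :
    MvPolynomial.aeval y (lin K q a b i) = a * y (Sum.inr (i, 0)) + b := by
  unfold lin
  rw [map_add, map_mul, MvPolynomial.aeval_C, MvPolynomial.aeval_C, MvPolynomial.aeval_X, map_intCast, map_intCast]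

/-- the constants fixed, the other variables free -/
noncomputable def fr [Algebra K ℂ] (w : Fin q → ℂ) (P : MvPolynomial (Option (Fin q) ⊕ Fin k) K) : MvPolynomial (Fin k) ℂ :=
  MvPolynomial.aeval (Sum.elim (fun o => MvPolynomial.C (wo w o)) MvPolynomial.X) P

lemma fr_eval [Algebra K ℂ] (w : Fin q → ℂ) (P : MvPolynomial (Option (Fin q) ⊕ Fin k) K) (u : Fin k → ℂ) :
    MvPolynomial.eval u (fr w P) = MvPolynomial.aeval (Sum.elim (wo w) u) P := by
  have h2 : ((MvPolynomial.aeval u : MvPolynomial (Fin k) ℂ →ₐ[ℂ] ℂ).restrictScalars K).comp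
      (MvPolynomial.aeval (Sum.elim (fun o => MvPolynomial.C (wo w o)) MvPolynomial.X) :
        MvPolynomial (Option (Fin q) ⊕ Fin k) K →ₐ[K] MvPolynomial (Fin k) ℂ)
      = MvPolynomial.aeval (Sum.elim (wo w) u) := by
    apply MvPolynomial.algHom_ext
    intro v
    rw [AlgHom.comp_apply, MvPolynomial.aeval_X, MvPolynomial.aeval_X, AlgHom.restrictScalars_apply]
    rcases v with o | v
    · rw [Sum.elim_inl, Sum.elim_inl, MvPolynomial.aeval_C]
      rfl
    · rw [Sum.elim_inr, Sum.elim_inr, MvPolynomial.aeval_X]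
  rw [← h2, AlgHom.comp_apply, AlgHom.restrictScalars_apply]
  rfl

end

/-- windows for isogeny classes -/
theorem winI (hn : ∀ s, Inp {F | SL F} (vJ s)) (q k D δ : ℕ) : ∃ E : ℕ, ∀ N H : ℕ, (H + 2) ^ E ≤ N →
    ∀ F : Subfield ℂ, SL F → ∀ (w : Fin q → ℂ) (s : Bool),
    ∃ S : Finset ℤ, S.card ≤ q + 2 ∧ ∀ n : Fin k → ℤ, Function.Injective n →
    (∀ i, (N : ℤ) ≤ si s * n i ∧ si s * n i ≤ N + H ∧ n i ∉ S) →
    ∀ v : Fin k → UpperHalfPlane, (∀ i, jj (v i) = n i) →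
    ∀ z : Fin k → ℂ, (∀ i, ∃ a b c d : ℚ, a * d - b * c ≠ 0 ∧ z i = ((a : ℂ) * v i + b) / ((c : ℂ) * v i + d)) →
    ∀ K : IntermediateField F ℂ, FiniteDimensional F K → Module.finrank F K ≤ D →
    ∀ P : MvPolynomial (Option (Fin q) ⊕ Fin k) K, P.totalDegree ≤ δ →
    MvPolynomial.aeval (Sum.elim (wo w) z) P = 0 → ∀ u, MvPolynomial.aeval (Sum.elim (wo w) u) P = 0 := by
  classical
  obtain ⟨E, hE⟩ := winZ2 hn q k D (Fintype.card (Option (Fin q)) * (δ * 1) + Fintype.card (Fin k) * (δ * 1))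
  refine ⟨E, fun N H hN F hF w s => ?_⟩
  obtain ⟨S, hS, h⟩ := hE N H hN F hF w s
  refine ⟨S, hS, fun n hn1 hnS v hv z hz K hK hKD P hP hP0 => ?_⟩
  choose g hg using fun i => toM4 (hz i)
  have hdet : ∀ i, ((g i).a : ℂ) * (g i).d - (g i).b * (g i).c ≠ 0 := fun i => by exact_mod_cast (g i).det
  have hden : ∀ i, ((g i).c : ℂ) * (v i : ℂ) + (g i).d ≠ 0 := by
    intro i h0
    have h1 := hg i
    rw [h0, mul_zero] at h1
    have h2 := hdet i
    by_cases hc : ((g i).c : ℂ) = 0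
    · rw [hc, zero_mul, zero_add] at h0
      apply h2
      rw [hc, h0]
      ring
    · apply h2
      have h3 : ((g i).c : ℂ) * (((g i).a : ℂ) * (g i).d - (g i).b * (g i).c) = 0 := by
        linear_combination ((g i).a : ℂ) * (g i).c * h0 + ((g i).c : ℂ) ^ 2 * h1
      exact (mul_eq_zero.1 h3).resolve_left hc
  set P' := clr δ (fun o => (MvPolynomial.X (Sum.inl o) : MvPolynomial (Option (Fin q) ⊕ Fin k × Fin 3) K))
    (fun i => lin K q (g i).a (g i).b i) (fun i => lin K q (g i).c (g i).d i) P with hP'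
  have hdeg : P'.totalDegree ≤ Fintype.card (Option (Fin q)) * (δ * 1) + Fintype.card (Fin k) * (δ * 1) :=
    clr_deg hP (fun a => dX _) (fun b => lin_deg _ _ _) fun b => lin_deg _ _ _
  have hmain := h n hn1 hnS v hv K hK hKD P' hdeg (by
    rw [hP', clr_eval hP _ fun i => by
      rw [lin_eval, Sum.elim_inr]
      exact hden i]
    refine mul_eq_zero_of_right _ ?_
    rw [← hP0]
    congr 2
    funext o
    rcases o with o | i
    · rw [Sum.elim_inl, Sum.elim_inl, MvPolynomial.aeval_X, Sum.elim_inl]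
    · rw [Sum.elim_inr, Sum.elim_inr, lin_eval, lin_eval, Sum.elim_inr]
      show ((g i).a * (v i : ℂ) + (g i).b) / ((g i).c * (v i : ℂ) + (g i).d) = z i
      rw [← hg i, mul_div_assoc, div_self (hden i), mul_one])
  have hkey : ∀ u : Fin k → ℂ, (∀ i, ((g i).a : ℂ) - (g i).c * u i ≠ 0) →
      MvPolynomial.aeval (Sum.elim (wo w) u) P = 0 := by
    intro u hu
    have h1 := hmain fun p => if p.2 = 0 then ((g p.1).d * u p.1 - (g p.1).b) / ((g p.1).a - (g p.1).c * u p.1) else 0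
    have hM : ∀ i, ((g i).c : ℂ) * (((g i).d * u i - (g i).b) / ((g i).a - (g i).c * u i)) + (g i).d =
        (((g i).a : ℂ) * (g i).d - (g i).b * (g i).c) / ((g i).a - (g i).c * u i) := fun i => mo1 (hu i)
    have hN' : ∀ i, ((g i).a : ℂ) * (((g i).d * u i - (g i).b) / ((g i).a - (g i).c * u i)) + (g i).b =
        (((g i).a : ℂ) * (g i).d - (g i).b * (g i).c) * u i / ((g i).a - (g i).c * u i) := fun i => mo2 (hu i)
    have hM0 : ∀ i, ((g i).c : ℂ) * (((g i).d * u i - (g i).b) / ((g i).a - (g i).c * u i)) + (g i).d ≠ 0 := by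
      intro i
      rw [hM i]
      exact div_ne_zero (hdet i) (hu i)
    rw [hP', clr_eval hP _ fun i => by
      rw [lin_eval, Sum.elim_inr]
      simp only [if_true]
      exact hM0 i] at h1
    have h2 := (mul_eq_zero.1 h1).resolve_left (Finset.prod_ne_zero_iff.2 fun i _ => pow_ne_zero _ (by
      rw [lin_eval, Sum.elim_inr]
      simp only [if_true]
      exact hM0 i))
    rw [← h2]
    congr 2
    funext o
    rcases o with o | i
    · rw [Sum.elim_inl, Sum.elim_inl, MvPolynomial.aeval_X, Sum.elim_inl]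
    · rw [Sum.elim_inr, Sum.elim_inr, lin_eval, lin_eval, Sum.elim_inr]
      simp only [if_true]
      rw [hM i, hN' i]
      exact (mo3 (hu i) (hdet i)).symm
  have hfr : fr w P * ∏ i, (MvPolynomial.C ((g i).a : ℂ) - MvPolynomial.C ((g i).c : ℂ) * MvPolynomial.X i) = 0 := by
    refine MvPolynomial.funext fun u => ?_
    rw [map_mul, map_zero, map_prod, fr_eval]
    by_cases hu : ∀ i, ((g i).a : ℂ) - (g i).c * u i ≠ 0
    · rw [hkey u hu, zero_mul]
    · push Not at hu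
      obtain ⟨i, hi⟩ := hu
      refine mul_eq_zero_of_right _ (Finset.prod_eq_zero (Finset.mem_univ i) ?_)
      rw [map_sub, map_mul, MvPolynomial.eval_C, MvPolynomial.eval_C, MvPolynomial.eval_X]
      exact hi
  have hfr0 : fr w P = 0 := by
    refine (mul_eq_zero.1 hfr).resolve_right (Finset.prod_ne_zero_iff.2 fun i _ hi => ?_)
    have h0 := congrArg (MvPolynomial.eval fun _ => (0 : ℂ)) hi
    have h1 := congrArg (MvPolynomial.eval fun _ => (1 : ℂ)) hi
    rw [map_sub, map_mul, MvPolynomial.eval_C, MvPolynomial.eval_C, MvPolynomial.eval_X, map_zero, mul_zero, sub_zero] at h0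
    rw [map_sub, map_mul, MvPolynomial.eval_C, MvPolynomial.eval_C, MvPolynomial.eval_X, map_zero, mul_one, h0, zero_sub,
      neg_eq_zero] at h1
    apply hdet i
    rw [h0, h1]
    ring
  intro u
  rw [← fr_eval, hfr0, map_zero]


/-- windows for isogeny classes over simultaneously Liouville fields -/
theorem winSL (q k D δ : ℕ) : ∃ E : ℕ, ∀ N H : ℕ, (H + 2) ^ E ≤ N →
    ∀ F : Subfield ℂ, SL F → ∀ (w : Fin q → ℂ) (s : Bool),
    ∃ S : Finset ℤ, S.card ≤ q + 2 ∧ ∀ n : Fin k → ℤ, Function.Injective n →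
    (∀ i, (N : ℤ) ≤ si s * n i ∧ si s * n i ≤ N + H ∧ n i ∉ S) →
    ∀ v : Fin k → UpperHalfPlane, (∀ i, jj (v i) = n i) →
    ∀ z : Fin k → ℂ, (∀ i, ∃ a b c d : ℚ, a * d - b * c ≠ 0 ∧ z i = ((a : ℂ) * v i + b) / ((c : ℂ) * v i + d)) →
    ∀ K : IntermediateField F ℂ, FiniteDimensional F K → Module.finrank F K ≤ D →
    ∀ P : MvPolynomial (Option (Fin q) ⊕ Fin k) K, P.totalDegree ≤ δ →
    MvPolynomial.aeval (Sum.elim (wo w) z) P = 0 → ∀ u, MvPolynomial.aeval (Sum.elim (wo w) u) P = 0 :=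
  winI (fun s => inpJ s (hmon s) (hlij s)) q k D δ

end Pool.Agent.L5helper52.JK
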